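import Pool.Agent.W170.Del.Main

set_option autoImplicit false

namespace Pool.Agent.Results.MP_93b8e4_co.SmoothIntervals

open Equiv

/-- The Coxeter length of a permutation: its number of inversions. -/
def len {m : ℕ} (w : Perm (Fin m)) : ℕ :=
  (Finset.univ.filter fun p : Fin m × Fin m => p.1 < p.2 ∧ w p.2 < w p.1).card

/-- The Bruhat order: the reflexive and transitive relation generated by `x ≤ t * x` for the
reflections (transpositions) `t` with `len x < len (t * x)`. -/
def Bruhat {m : ℕ} (u w : Perm (Fin m)) : Prop :=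
  Relation.ReflTransGen
    (fun x y : Perm (Fin m) => ∃ t : Perm (Fin m), t.IsSwap ∧ y = t * x ∧ len x < len y) u w

/-- The interval `[u, w]` is smooth: the number of reflections `t` with `t * u ≤ w` is the
length of `w`. -/
def Smooth {m : ℕ} (u w : Perm (Fin m)) : Prop :=
  Nat.card {t : Perm (Fin m) // t.IsSwap ∧ Bruhat (t * u) w} = len w

/-- The simple reflection `s_i = (i i+1)` of the symmetric group on `n + 1` letters. -/
def simple {n : ℕ} (i : Fin n) : Perm (Fin (n + 1)) := swap i.castSucc i.succ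

section aux

open Pool.Agent.Results.MP_0fb7f5_co
open Pool.Agent.W170.Del

variable {m : ℕ}

lemma len_eq (w : Perm (Fin m)) : len w = BooleanIntervals.inv w := rfl

lemma inv_inverse (w : Perm (Fin m)) :
    BooleanIntervals.inv w⁻¹ = BooleanIntervals.inv w := by
  unfold BooleanIntervals.inv
  apply Finset.card_nbij' (fun p => (w⁻¹ p.2, w⁻¹ p.1)) (fun p => (w p.2, w p.1))
  · intro p hp
    simp only [Finset.coe_filter, Set.mem_ofPred_eq, Finset.mem_univ, true_and] at hp ⊢
    exact ⟨hp.2, by simpa using hp.1⟩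
  · intro p hp
    simp only [Finset.coe_filter, Set.mem_ofPred_eq, Finset.mem_univ, true_and] at hp ⊢
    exact ⟨hp.2, by simpa using hp.1⟩
  · intro p _
    simp
  · intro p _
    simp

lemma bruhat_iff (u w : Perm (Fin m)) : Bruhat u w ↔ BooleanIntervals.le u⁻¹ w⁻¹ := by
  rw [← BooleanIntervals.bruhat_iff_le]
  constructor
  · intro h
    unfold Bruhat at h
    unfold BooleanIntervals.Bruhat
    refine Relation.ReflTransGen.lift (fun z : Perm (Fin m) => z⁻¹) ?_ _ _ h
    rintro x y ⟨t, ⟨a, b, hab, rfl⟩, rfl, hlt⟩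
    refine ⟨a, b, ?_, ?_⟩
    · show (swap a b * x)⁻¹ = x⁻¹ * swap a b
      rw [mul_inv_rev, swap_inv]
    · show BooleanIntervals.inv x⁻¹ < BooleanIntervals.inv (swap a b * x)⁻¹
      rw [inv_inverse, inv_inverse]; exact hlt
  · intro h
    unfold BooleanIntervals.Bruhat at h
    unfold Bruhat
    have h' := Relation.ReflTransGen.lift
      (p := fun x y : Perm (Fin m) => ∃ t : Perm (Fin m), t.IsSwap ∧ y = t * x ∧ len x < len y)
      (fun z : Perm (Fin m) => z⁻¹) (by
        rintro x y ⟨i, j, rfl, hlt⟩
        refine ⟨swap i j, ⟨i, j, ?_, rfl⟩, ?_, ?_⟩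
        · rintro rfl
          rw [swap_self] at hlt
          have : x * Equiv.refl (Fin m) = x := by ext k; simp
          rw [this] at hlt
          omega
        · show (x * swap i j)⁻¹ = swap i j * x⁻¹
          rw [mul_inv_rev, swap_inv]
        · show len x⁻¹ < len (x * swap i j)⁻¹
          rw [len_eq, len_eq, inv_inverse, inv_inverse]; exact hlt) _ _ h
    simp only [Function.onFun] at h'
    simpa only [inv_inv] using h'

lemma FF_eq_card {x v : Perm (Fin m)} (u w : Perm (Fin m)) (hx : x = u⁻¹) (hv : v = w⁻¹) :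
    BooleanIntervals.FF x v = 2 * Nat.card {t : Perm (Fin m) // t.IsSwap ∧ Bruhat (t * u) w} := by
  classical
  have h1 : BooleanIntervals.FF x v =
      (∑ p : Fin m × Fin m, if p.1 < p.2 then BooleanIntervals.gg v x p.1 p.2 else 0) +
      ∑ p : Fin m × Fin m, if p.2 < p.1 then BooleanIntervals.gg v x p.2 p.1 else 0 := by
    unfold BooleanIntervals.FF
    rw [← Finset.sum_add_distrib]
    apply Finset.sum_congr rfl
    rintro ⟨p, q⟩ -
    simp only
    rcases lt_trichotomy p q with h1 | h1 | h1
    · have h2 : p ≠ q := ne_of_lt h1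
      have h3 : ¬ q < p := not_lt.2 (le_of_lt h1)
      simp [h1, h2, h3]
    · simp [h1]
    · have h2 : p ≠ q := ne_of_gt h1
      have h3 : ¬ p < q := not_lt.2 (le_of_lt h1)
      simp [h1, h2, h3, BooleanIntervals.gg_comm v x p q]
  have h2 : (∑ p : Fin m × Fin m, if p.2 < p.1 then BooleanIntervals.gg v x p.2 p.1 else 0) =
      ∑ p : Fin m × Fin m, if p.1 < p.2 then BooleanIntervals.gg v x p.1 p.2 else 0 :=
    Equiv.sum_comp (Equiv.prodComm (Fin m) (Fin m))
      (fun p : Fin m × Fin m => if p.1 < p.2 then BooleanIntervals.gg v x p.1 p.2 else 0)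
  have h3 : (∑ p : Fin m × Fin m, if p.1 < p.2 then BooleanIntervals.gg v x p.1 p.2 else 0) =
      (Finset.univ.filter fun p : Fin m × Fin m =>
        p.1 < p.2 ∧ BooleanIntervals.le (x * swap p.1 p.2) v).card := by
    rw [Finset.card_filter]
    apply Finset.sum_congr rfl
    rintro ⟨p, q⟩ -
    simp only
    unfold BooleanIntervals.gg
    by_cases hp : p < q <;> by_cases hq : BooleanIntervals.le (x * swap p q) v <;> simp [hp, hq]
  have h4 : (Finset.univ.filter fun p : Fin m × Fin m =>
        p.1 < p.2 ∧ BooleanIntervals.le (x * swap p.1 p.2) v).card =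
      (Finset.univ.filter fun t : Perm (Fin m) => t.IsSwap ∧ Bruhat (t * u) w).card := by
    have hbr : ∀ p q : Fin m, Bruhat (swap p q * u) w ↔
        BooleanIntervals.le (x * swap p q) v := by
      intro p q
      rw [bruhat_iff, mul_inv_rev, swap_inv, hx, hv]
    apply Finset.card_bij (fun p _ => swap p.1 p.2)
    · intro p hp
      simp only [Finset.mem_filter, Finset.mem_univ, true_and] at hp ⊢
      exact ⟨⟨p.1, p.2, ne_of_lt hp.1, rfl⟩, (hbr _ _).2 hp.2⟩
    · intro p hp q hq hpq
      simp only [Finset.mem_filter, Finset.mem_univ, true_and] at hp hq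
      have := BooleanIntervals.swap_inj hp.1 hq.1 hpq
      exact Prod.ext this.1 this.2
    · intro t ht
      simp only [Finset.mem_filter, Finset.mem_univ, true_and] at ht
      obtain ⟨⟨a, b, hab, rfl⟩, hb⟩ := ht
      rcases lt_or_gt_of_ne hab with h | h
      · refine ⟨(a, b), ?_, rfl⟩
        simp only [Finset.mem_filter, Finset.mem_univ, true_and]
        exact ⟨h, (hbr _ _).1 hb⟩
      · refine ⟨(b, a), ?_, swap_comm _ _⟩
        simp only [Finset.mem_filter, Finset.mem_univ, true_and]
        rw [swap_comm] at hb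
        exact ⟨h, (hbr _ _).1 hb⟩
  rw [h1, h2, h3, h4, Nat.card_eq_fintype_card, Fintype.card_subtype]
  ring

end aux

open Pool.Agent.Results.MP_0fb7f5_co
open Pool.Agent.W170.Del

/-- For all `u < w` in the symmetric group on `n + 1` letters such that `[u, w]` is smooth there
is a simple reflection `s` with `s u > u` such that `s u` is not below `w` or `s w < w`. -/
theorem result (n : ℕ) (u w : Perm (Fin (n + 1))) (huw : Bruhat u w) (hne : u ≠ w)
    (hs : Smooth u w) :
    ∃ i : Fin n, len u < len (simple i * u) ∧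
      (¬ Bruhat (simple i * u) w ∨ len (simple i * w) < len w) := by
  have hle : BooleanIntervals.le u⁻¹ w⁻¹ := (bruhat_iff u w).1 huw
  have hsm : Sm w⁻¹ u⁻¹ := by
    refine ⟨hle, ?_⟩
    rw [FF_eq_card u w rfl rfl, inv_inverse]
    unfold Smooth at hs
    rw [hs]
    rfl
  obtain ⟨i, i', h1, h2, h3⟩ := main_pos hsm (fun h => hne (inv_injective h))
  have hlt : i < i' := by rw [Fin.lt_def]; omega
  have hi'n := i'.isLt
  have hi : (i : ℕ) < n := by omega
  have e1 : (⟨(i : ℕ), hi⟩ : Fin n).castSucc = i := rfl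
  have e2 : (⟨(i : ℕ), hi⟩ : Fin n).succ = i' := by
    ext
    simp only [Fin.val_succ]
    omega
  refine ⟨⟨i, hi⟩, ?_, ?_⟩
  · unfold simple
    rw [e1, e2, len_eq, len_eq, ← inv_inverse u, ← inv_inverse (swap i i' * u), mul_inv_rev,
      swap_inv]
    exact BooleanIntervals.inv_lt_swap _ hlt h2
  · unfold simple
    rw [e1, e2]
    rcases h3 with h3 | h3
    · left
      rw [bruhat_iff, mul_inv_rev, swap_inv]
      exact h3
    · right
      rw [len_eq, len_eq, ← inv_inverse w, ← inv_inverse (swap i i' * w), mul_inv_rev, swap_inv]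
      exact (BooleanIntervals.swap_of_gt _ hlt h3).2

end Pool.Agent.Results.MP_93b8e4_co.SmoothIntervals
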